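import Pool.Agent.TH54.BU.Defs

/-!
# Large power quotients with variable exponents: definitions

`n i` is the exponent of the relator `x i ^ n i`; all exponents are at least `n0`.
-/

set_option autoImplicit false

namespace Pool.Agent.Q19.VX

open Pool.Agent.TH54.BU

/-- the data of a large power quotient with exponents `n i` -/
structure FilV {G : Type*} [Group G] {H : GH G} {c θ T : ℕ} (L : LS H c θ T) (n : L.ι → ℕ)
    (M : Subgroup G) : Prop where
  normal : M.Normal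
  rot : ∀ (i : L.ι) (u : G) (k : ℤ), L.rt i u (n i * k) ∈ M
  gr : ∀ m ∈ M, m ≠ 1 → ∀ p : G, ∃ (i : L.ι) (u : G),
    (n i : ℤ) ≤ |L.s i u p (m * p)| + 12 * L.thr

/-- the data of one step, with exponents `n i` -/
structure SetupV {G : Type} [Group G] {H : GH G} {c θ T : ℕ} (L : LS H c θ T)
    (K B L1 Θ n0 : ℕ) (n : L.ι → ℕ) (E : GH G) (M : Subgroup G) [M.Normal] (Q : GH (G ⧸ M)) :
    Prop where
  hK : 100 * H.D + 100 ≤ K
  stab : H.Stab T
  hT : 1 ≤ T
  acy : H.Acy K B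
  lo : ∀ i, n0 ≤ n i
  hL1 : 44 * H.D + 44 ≤ L1
  short : ∀ z, ¬ IsOfFinOrder z → H.len z + 40 * H.D + 40 ≤ L1 → L.Short z
  fil : FilV L n M
  cone : L.Cone E Θ
  le : ∀ g : G, Q.len (g : G ⧸ M) ≤ E.len g
  lift : ∀ q : G ⧸ M, ∃ g : G, (g : G ⧸ M) = q ∧ E.len g = Q.len q
  hQD : Q.D = 2 * E.D + 2

end Pool.Agent.Q19.VX
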