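import Pool.Agent.TH54.BU.Case1
import Pool.Agent.Q19.VX.Transfer

/-!
# Two consecutive big edges (variable exponents)
-/

set_option autoImplicit false

namespace Pool.Agent.Q19.VX

open Pool.Agent.TH54.BU

/-- two consecutive big edges -/
theorem SetupV.case1 {G : Type} [Group G] {H : GH G} {c θ T : ℕ} {L : LS H c θ T}
    {K B L1 Θ n0 : ℕ} {n : L.ι → ℕ} {E : GH G} {M : Subgroup G} [M.Normal] {Q : GH (G ⧸ M)}
    (S : SetupV L K B L1 Θ n0 n E M Q) {γ : ℕ → G} {l : ℕ} (hγ : E.Geod γ l)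
    (hQγ : Q.d (γ 0 : G ⧸ M) (γ l) = l)
    (hang : ∀ (i : L.ι) (u : G), 2 * |L.s i u (γ 0) (γ l)| < n i + T * (2 * c + 1))
    {K' k1 k2 : ℕ} (hk1 : K' + 2 ≤ k1) (hk : k1 < k2) (hk2 : k2 + 1 + (K' + 2) ≤ l)
    (hbig1 : 2 * c + θ + 10 * Θ + 10 ≤ H.d (γ k1) (γ (k1 + 1)))
    (hbig2 : 2 * c + θ + 10 * Θ + 10 ≤ H.d (γ k2) (γ (k2 + 1)))
    (hsmall : ∀ k, k1 < k → k < k2 → H.d (γ k) (γ (k + 1)) ≤ 2 * c + θ + 10 * Θ + 10)
    (hn : (4 * K' + 20) * (T * (2 * c + 2 * θ + 20 * Θ + 20) + 1) + 24 * L.thr ≤ n0) :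
    {g : G ⧸ M | ∀ j, k1 - (K' + 2) ≤ j → j ≤ k2 + 1 + (K' + 2) →
      Q.d (γ j : G ⧸ M) (g * γ j) ≤ K'}.Finite ∧
    {g : G ⧸ M | ∀ j, k1 - (K' + 2) ≤ j → j ≤ k2 + 1 + (K' + 2) →
      Q.d (γ j : G ⧸ M) (g * γ j) ≤ K'}.ncard ≤ (2 * K' + 3) ^ 2 := by
  classical
  set W : Set (G ⧸ M) := {g : G ⧸ M | ∀ j, k1 - (K' + 2) ≤ j → j ≤ k2 + 1 + (K' + 2) →
      Q.d (γ j : G ⧸ M) (g * γ j) ≤ K'} with hW
  -- the big edges lie on lines
  have line : ∀ k, k < l → 2 * c + θ + 10 * Θ + 10 ≤ H.d (γ k) (γ (k + 1)) →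
      ∃ (i : L.ι), (γ k)⁻¹ * γ (k + 1) ∈ Subgroup.zpowers (L.x i) := by
    intro k hkl hb
    rcases (S.cone.le_one ((γ k)⁻¹ * γ (k + 1))).1 (hγ.1 k hkl) with h | ⟨i, t, ht⟩
    · exfalso
      unfold GH.d at hb
      omega
    · exact ⟨i, t, ht.symm⟩
  obtain ⟨i1, hi1⟩ := line k1 (by omega) hbig1
  obtain ⟨i2, hi2⟩ := line k2 (by omega) hbig2
  have hn' : (4 * K' + 20) * (T * (2 * c + θ + 10 * Θ + 10) + 1) + 24 * L.thr ≤ n0 := by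
    refine le_trans ?_ hn
    gcongr <;> omega
  -- transfer at the two edges
  have tr1 : ∀ g ∈ W, ∃ j, (j ≤ k1 + K' + 1 ∧ k1 ≤ j + K' + 1) ∧ ∃ g' : G, (g' : G ⧸ M) = g ∧
      (γ k1)⁻¹ * g' * γ j ∈ Subgroup.zpowers (L.x i1) := by
    intro g hg
    obtain ⟨j, h1, h2, h3⟩ := transfer L S.fil S.lo S.cone S.le S.lift hγ hQγ hang hk1
      (by omega) hbig1 hi1 hn' (hg _ le_rfl (by omega)) (hg _ (by omega) (by omega))
    exact ⟨j, ⟨h1, h2⟩, h3⟩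
  have tr2 : ∀ g ∈ W, ∃ j, (j ≤ k2 + K' + 1 ∧ k2 ≤ j + K' + 1) ∧ ∃ g' : G, (g' : G ⧸ M) = g ∧
      (γ k2)⁻¹ * g' * γ j ∈ Subgroup.zpowers (L.x i2) := by
    intro g hg
    obtain ⟨j, h1, h2, h3⟩ := transfer L S.fil S.lo S.cone S.le S.lift hγ hQγ hang
      (show K' + 2 ≤ k2 by omega)
      (by omega) hbig2 hi2 hn' (hg _ (by omega) (by omega)) (hg _ (by omega) (by omega))
    exact ⟨j, ⟨h1, h2⟩, h3⟩
  choose! J1 hJ1 g1 hg1 hz1 using tr1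
  choose! J2 hJ2 g2 hg2 hz2 using tr2
  -- the projections of the middle piece
  have hD : ∀ (i : L.ι) (u : G), L.D i u (γ (k1 + 1)) (γ k2) ≤
      2 * c + θ + 10 * Θ + 10 + 2 * Θ := by
    intro i u
    exact L.cs1_proj S.cone hγ (show k1 + 1 ≤ k2 by omega) (by omega)
      (fun k h1 h2 => hsmall k (by omega) h2) i u
  have hne : i1 = i2 → (γ (k1 + 1))⁻¹ * γ k2 ∉ Subgroup.zpowers (L.x i1) := by
    intro h12 hmem
    subst h12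
    have h3 := (Subgroup.zpowers (L.x i1)).mul_mem
      ((Subgroup.zpowers (L.x i1)).mul_mem hi1 hmem) hi2
    rw [show (γ k1)⁻¹ * γ (k1 + 1) * ((γ (k1 + 1))⁻¹ * γ k2) * ((γ k2)⁻¹ * γ (k2 + 1)) =
      (γ k1)⁻¹ * γ (k2 + 1) by group] at h3
    have h4 := L.cs1_on_E S.cone h3
    have h5 := cs1_geod hγ (show k1 ≤ k2 + 1 by omega) (by omega)
    omega
  have hn2 : 4 * (T * (2 * c + θ + 10 * Θ + 10 + 2 * Θ + θ + 1) + 1) + 24 * L.thr +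
      T * (2 * c + 1) ≤ n0 := by
    refine le_trans ?_ hn
    have h1 : T * (2 * c + θ + 10 * Θ + 10 + 2 * Θ + θ + 1) ≤
        T * (2 * c + 2 * θ + 20 * Θ + 20) := Nat.mul_le_mul_left _ (by omega)
    have h2 : T * (2 * c + 1) ≤ T * (2 * c + 2 * θ + 20 * Θ + 20) :=
      Nat.mul_le_mul_left _ (by omega)
    have h3 : 20 * (T * (2 * c + 2 * θ + 20 * Θ + 20) + 1) ≤
        (4 * K' + 20) * (T * (2 * c + 2 * θ + 20 * Θ + 20) + 1) :=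
      Nat.mul_le_mul_right _ (by omega)
    omega
  -- elements with the same data are equal
  have inj : Set.InjOn (fun g => (J1 g, J2 g)) W := by
    intro g hg h hh heq
    simp only [Prod.mk.injEq] at heq
    obtain ⟨e1, e2⟩ := heq
    have a1 := hz1 g hg
    have b1 := hz1 h hh
    have a2 := hz2 g hg
    have b2 := hz2 h hh
    rw [← e1] at b1
    rw [← e2] at b2
    have m1 := (Subgroup.zpowers (L.x i1)).mul_mem b1 ((Subgroup.zpowers (L.x i1)).inv_mem a1)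
    have m2 := (Subgroup.zpowers (L.x i2)).mul_mem b2 ((Subgroup.zpowers (L.x i2)).inv_mem a2)
    rw [show (γ k1)⁻¹ * g1 h * γ (J1 g) * ((γ k1)⁻¹ * g1 g * γ (J1 g))⁻¹ =
      (γ k1)⁻¹ * (g1 h * (g1 g)⁻¹) * γ k1 by group] at m1
    rw [show (γ k2)⁻¹ * g2 h * γ (J2 g) * ((γ k2)⁻¹ * g2 g * γ (J2 g))⁻¹ =
      (γ k2)⁻¹ * (g2 h * (g2 g)⁻¹) * γ k2 by group] at m2
    obtain ⟨r1, hr1⟩ := m1
    obtain ⟨r2, hr2⟩ := m2
    obtain ⟨t, ht⟩ := hi1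
    simp only at hr1 hr2 ht
    have q1 : L.rt i1 (γ (k1 + 1)) r1 = g1 h * (g1 g)⁻¹ := by
      have hγ1 : γ (k1 + 1) = γ k1 * L.x i1 ^ t := by rw [ht]; group
      have hgg : g1 h * (g1 g)⁻¹ = γ k1 * L.x i1 ^ r1 * (γ k1)⁻¹ := by rw [hr1]; group
      rw [hgg]
      unfold LS.rt
      rw [hγ1]
      rw [show γ k1 * L.x i1 ^ t * L.x i1 ^ r1 * (γ k1 * L.x i1 ^ t)⁻¹ =
        γ k1 * (L.x i1 ^ t * L.x i1 ^ r1 * (L.x i1 ^ t)⁻¹) * (γ k1)⁻¹ by group]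
      congr 2
      rw [← zpow_neg, ← zpow_add, ← zpow_add]
      congr 1
      ring
    have q2 : L.rt i2 (γ k2) r2 = g2 h * (g2 g)⁻¹ := by
      unfold LS.rt
      rw [hr2]
      group
    have hq : (L.rt i1 (γ (k1 + 1)) r1 : G ⧸ M) = L.rt i2 (γ k2) r2 := by
      rw [q1, q2]
      rw [QuotientGroup.mk_mul, QuotientGroup.mk_mul, QuotientGroup.mk_inv,
        QuotientGroup.mk_inv, hg1 g hg, hg1 h hh, hg2 g hg, hg2 h hh]
    have hone := rigid L S.fil S.lo hne hD hn2 hq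
    rw [q1, QuotientGroup.mk_mul, QuotientGroup.mk_inv, hg1 g hg, hg1 h hh] at hone
    exact (mul_inv_eq_one.1 hone).symm
  -- count
  set F : Finset (ℕ × ℕ) := Finset.Icc (k1 - (K' + 1)) (k1 + K' + 1) ×ˢ
    Finset.Icc (k2 - (K' + 1)) (k2 + K' + 1) with hF
  have maps : Set.MapsTo (fun g => (J1 g, J2 g)) W (F : Set (ℕ × ℕ)) := by
    intro g hg
    have h1 := hJ1 g hg
    have h2 := hJ2 g hg
    simp only [hF, Finset.coe_product, Finset.coe_Icc, Set.mem_prod, Set.mem_Icc]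
    omega
  have hcard : F.card = (2 * K' + 3) ^ 2 := by
    rw [hF, Finset.card_product, Nat.card_Icc, Nat.card_Icc, sq]
    congr 1 <;> omega
  refine ⟨Set.Finite.of_injOn maps inj F.finite_toSet, ?_⟩
  calc W.ncard ≤ (F : Set (ℕ × ℕ)).ncard :=
        Set.ncard_le_ncard_of_injOn _ maps inj F.finite_toSet
    _ = (2 * K' + 3) ^ 2 := by rw [Set.ncard_coe_finset, hcard]

end Pool.Agent.Q19.VX
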