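import Pool.Agent.TH54.BU.Case2
import Pool.Agent.Q19.VX.Surv
import Pool.Agent.Q19.VX.Rigid

/-!
# A long window without big edges (variable exponents)
-/

set_option autoImplicit false

namespace Pool.Agent.Q19.VX

open Pool.Agent.TH54.BU

/-- a long window without big edges -/
theorem SetupV.case2 {G : Type} [Group G] {H : GH G} {c θ T : ℕ} {L : LS H c θ T}
    {K B L1 Θ n0 : ℕ} {n : L.ι → ℕ} {E : GH G} {M : Subgroup G} [M.Normal] {Q : GH (G ⧸ M)}
    (S : SetupV L K B L1 Θ n0 n E M Q) {A K' R : ℕ} (hR : R = (2 * A + 3 * Θ + 1) * K') {P1 P2 : G}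
    (hD : ∀ (i : L.ι) (u : G), L.D i u P1 P2 ≤ A)
    (hfar : 2 * K' + 2 + B + 24 * R + 100 * H.D + 100 + 2 * R +
      20 * (H.D + c + 1) * (Nat.clog 2 T + 10 * (H.D + c + 1)) ≤ E.d P1 P2)
    (hn : 4 * (T * (A + Θ + 1) + 1) + 24 * L.thr + T * (2 * c + 1) +
      4 * T * (R + θ + Θ + 1000 * (H.D + c + θ + 1)) + 48 * L.thr + 4 ≤ n0) :
    (∀ g : G ⧸ M, Q.d (P1 : G ⧸ M) (g * P1) ≤ K' → Q.d (P2 : G ⧸ M) (g * P2) ≤ K' →
      IsOfFinOrder g → g = 1) ∧
    ∀ g h : G ⧸ M, Q.d (P1 : G ⧸ M) (g * P1) ≤ K' → Q.d (P2 : G ⧸ M) (g * P2) ≤ K' →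
      Q.d (P1 : G ⧸ M) (h * P1) ≤ K' → Q.d (P2 : G ⧸ M) (h * P2) ≤ K' → g * h = h * g := by
  -- lifts
  have hlift : ∀ g : G ⧸ M, Q.d (P1 : G ⧸ M) (g * P1) ≤ K' → Q.d (P2 : G ⧸ M) (g * P2) ≤ K' →
      ∃ g' : G, (g' : G ⧸ M) = g ∧ H.d P1 (g' * P1) ≤ R ∧ H.d P2 (g' * P2) ≤ R := by
    intro g h1 h2
    rw [hR]
    exact lift_window L S.fil S.lo S.cone S.lift hD (by omega) (by omega) h1 h2
  have hmix : H.Mix K B 0 := fun q hq =>
    ⟨fun g hg => (S.acy q hq g hg).1, Or.inl fun g hg h hh => (S.acy q hq g hg).2 h hh⟩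
  have hacy := H.mixA S.hK S.stab hmix R
  have hEH : E.d P1 P2 ≤ H.d P1 P2 := S.cone.le _
  have hlong : B + 8 * (0 + 3) * R + 100 * H.D + 100 ≤ H.len (P1⁻¹ * P2) := by
    change _ ≤ H.d P1 P2
    omega
  refine ⟨?_, ?_⟩
  · intro g hg1 hg2 hfin
    obtain ⟨g', rfl, h1, h2⟩ := hlift g hg1 hg2
    have hm := c2_mem_SD H h1 h2
    have ht := (hacy _ hlong _ hm).1
    by_cases hf : IsOfFinOrder g'
    · have hf1 : IsOfFinOrder (P1⁻¹ * g' * P1) := by
        apply c2_finOrder_conj (v := P1⁻¹)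
        rw [show P1⁻¹⁻¹ * (P1⁻¹ * g' * P1) * P1⁻¹ = g' by group]
        exact hf
      have h3 := ht hf1
      have h4 : g' = 1 := by
        have : P1⁻¹ * g' * P1 = P1⁻¹ * 1 * P1 := by rw [h3]; group
        exact mul_left_cancel (mul_right_cancel this)
      rw [h4]; rfl
    · exfalso
      by_cases hs : L.Short g'
      · obtain ⟨i, u, k, hk⟩ := hs
        have hk0 : k ≠ 0 := by
          rintro rfl
          apply hf
          rw [hk, zpow_zero, mul_one, mul_inv_cancel]
          exact IsOfFinOrder.one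
        have e : g' = L.rt i u k := hk
        rw [e] at h1 h2
        have t1 := L.tube hk0 h1
        have t2 := L.tube hk0 h2
        have e1 : E.d P1 (L.pr i u P1) ≤ H.d P1 (L.pr i u P1) := S.cone.le _
        have e2 : E.d P2 (L.pr i u P2) ≤ H.d P2 (L.pr i u P2) := S.cone.le _
        have e3 : E.d (L.pr i u P1) (L.pr i u P2) ≤ 1 := by
          refine (S.cone.le_one _).2 (Or.inr ⟨i, L.κ i (u⁻¹ * P2) - L.κ i (u⁻¹ * P1), ?_⟩)
          unfold LS.pr
          rw [zpow_sub]
          have hc : L.x i ^ L.κ i (u⁻¹ * P2) * (L.x i ^ L.κ i (u⁻¹ * P1))⁻¹ =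
              (L.x i ^ L.κ i (u⁻¹ * P1))⁻¹ * L.x i ^ L.κ i (u⁻¹ * P2) := by
            rw [← zpow_neg, ← zpow_add, ← zpow_add, add_comm]
          rw [hc]
          group
        have t3 := E.d_tri P1 (L.pr i u P1) P2
        have t4 := E.d_tri (L.pr i u P1) (L.pr i u P2) P2
        rw [E.d_comm (L.pr i u P2) P2] at t4
        have e4 : 20 * (H.D + c + 1) * (Nat.clog 2 T + 10 * (H.D + c + 1)) =
            2 * (10 * (H.D + c + 1) * (Nat.clog 2 T + 10 * (H.D + c + 1))) := by ring
        omega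
      · -- a conjugate of minimal length
        obtain ⟨v, hv⟩ : ∃ v : G, ∀ w : G, H.len (v⁻¹ * g' * v) ≤ H.len (w⁻¹ * g' * w) :=
          ⟨Function.argmin (fun w : G => H.len (w⁻¹ * g' * w)),
            fun w => Function.argmin_le (fun w : G => H.len (w⁻¹ * g' * w)) w⟩
        set z : G := v⁻¹ * g' * v with hz
        have hcm : H.CMin z := by
          intro u
          have := hv (v * u)
          rwa [show (v * u)⁻¹ * g' * (v * u) = u⁻¹ * z * u by rw [hz]; group] at this
        have hns : ¬ L.Short z := by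
          rintro ⟨i, u, k, hk⟩
          apply hs
          refine ⟨i, v * u, k, ?_⟩
          have : g' = v * z * v⁻¹ := by rw [hz]; group
          rw [this, hk]
          group
        have hzf : ¬ IsOfFinOrder z := fun h => hf (c2_finOrder_conj h)
        have hzR : H.len z ≤ R := by
          have := hv P1
          rw [show P1⁻¹ * g' * P1 = P1⁻¹ * (g' * P1) by group] at this
          exact this.trans h1
        have hl : 4 * H.D + 4 ≤ H.len z := by
          by_contra hlt
          apply hns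
          apply S.short z hzf
          have := S.hL1
          omega
        have hang : ∀ (i : L.ι) (u : G) (a b : ℤ),
            |L.s i u (z ^ a) (z ^ b)| + T * Θ + 12 * L.thr < n i := by
          intro i u a b
          have loi := S.lo i
          have o1 := L.ovz hcm hl hns i u a b
          have o2 := c2_abs_s L i u (z ^ a) (z ^ b)
          have o3 : T * L.D i u (z ^ a) (z ^ b) + T * Θ ≤
              T * (R + θ + Θ + 1000 * (H.D + c + θ + 1)) := by
            rw [← Nat.mul_add]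
            apply Nat.mul_le_mul_left
            omega
          have o4 : 4 * T * (R + θ + Θ + 1000 * (H.D + c + θ + 1)) =
            4 * (T * (R + θ + Θ + 1000 * (H.D + c + θ + 1))) := by ring
          have o5 : |L.s i u (z ^ a) (z ^ b)| ≤ (T * L.D i u (z ^ a) (z ^ b) : ℕ) := o2
          have o6 : T * L.D i u (z ^ a) (z ^ b) + T * Θ + 12 * L.thr < n i := by omega
          have o7 : (T * L.D i u (z ^ a) (z ^ b) : ℕ) + (T : ℤ) * Θ + 12 * L.thr < n i := by
            exact_mod_cast o6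
          linarith
        have hsurv := surv L S.fil S.lo S.cone (by omega) S.lift hcm hl hns hang
        obtain ⟨k, hk, hk1⟩ := isOfFinOrder_iff_pow_eq_one.1 hfin
        have h5 := hsurv k
        have h6 : ((z : G) : G ⧸ M) ^ k = 1 := by
          have e : ((z : G) : G ⧸ M) = ((v : G) : G ⧸ M)⁻¹ * ((g' : G) : G ⧸ M) *
              (((v : G) : G ⧸ M)⁻¹)⁻¹ := by
            rw [hz, inv_inv]
            rfl
          rw [e, conj_pow, hk1]
          group
        rw [h6, Q.len_one, mul_zero] at h5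
        omega
  · intro g h hg1 hg2 hh1 hh2
    obtain ⟨g', rfl, h1, h2⟩ := hlift g hg1 hg2
    obtain ⟨h', rfl, h3, h4⟩ := hlift h hh1 hh2
    have hm := c2_mem_SD H h1 h2
    have hm' := c2_mem_SD H h3 h4
    have hc := (hacy _ hlong _ hm).2 _ hm'
    have e1 : P1⁻¹ * g' * P1 * (P1⁻¹ * h' * P1) = P1⁻¹ * (g' * h') * P1 := by group
    have e2 : P1⁻¹ * h' * P1 * (P1⁻¹ * g' * P1) = P1⁻¹ * (h' * g') * P1 := by group
    rw [e1, e2] at hc
    have e3 : g' * h' = h' * g' := mul_left_cancel (mul_right_cancel hc)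
    rw [← QuotientGroup.mk_mul, ← QuotientGroup.mk_mul, e3]

end Pool.Agent.Q19.VX
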