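import Pool.Agent.TH54.BU.MixQ
import Pool.Agent.Q19.VX.Case1
import Pool.Agent.Q19.VX.Case2

/-!
# The mixed property of the quotient (variable exponents, torsion of exponent `p ^ m`)
-/

set_option autoImplicit false

namespace Pool.Agent.Q19.VX

open Pool.Agent.TH54.BU

theorem mq_main {G : Type} [Group G] {H : GH G} {c θ T : ℕ} {L : LS H c θ T}
    {K B L1 Θ p m : ℕ} {n : L.ι → ℕ} {E : GH G} {M : Subgroup G} [M.Normal] {Q : GH (G ⧸ M)}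
    (S : SetupV L K B L1 Θ p n E M Q) (hp : p.Prime) (ht : Tor (G ⧸ M) (p ^ m))
    {Kb K' N A R W m0 : ℕ} (hK' : K' = Kb + Q.D) (h10 : 10 * Q.D ≤ K')
    (hN : N = (2 * K' + 3) ^ 2) (hA : A = 2 * c + θ + 12 * Θ + 10)
    (hR : R = (2 * A + 3 * Θ + 1) * K')
    (hW : W = 2 * K' + 2 + B + 24 * R + 100 * H.D + 100 + 2 * R +
      20 * (H.D + c + 1) * (Nat.clog 2 T + 10 * (H.D + c + 1)))
    (hm0 : m0 = 2 * (N * Kb) + 10 * Q.D + 10 + K' + 5)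
    (n1 : N < p)
    (n2 : T * (2 * c + 1) + 2 * T * Θ ≤ p)
    (n3 : (4 * K' + 20) * (T * (2 * c + 2 * θ + 20 * Θ + 20) + 1) + 24 * L.thr ≤ p)
    (n4 : 4 * (T * (A + Θ + 1) + 1) + 24 * L.thr + T * (2 * c + 1) +
      4 * T * (R + θ + Θ + 1000 * (H.D + c + θ + 1)) + 48 * L.thr + 4 ≤ p)
    (q : G ⧸ M) (hq : 2 * m0 + 3 * W + 10 ≤ Q.len q) :
    (∀ g ∈ Q.SD Kb q, IsOfFinOrder g → g = 1) ∧
    ((∀ g ∈ Q.SD Kb q, ∀ h ∈ Q.SD Kb q, g * h = h * g) ∨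
      ((Q.SD Kb q).Finite ∧ (Q.SD Kb q).ncard ≤ N)) := by
  obtain ⟨g0, hg0, hl0⟩ := S.lift q
  obtain ⟨m, hm, hmin, hang⟩ := reduced L S.fil S.lo S.cone n2 g0
  obtain ⟨q', hq'def⟩ : ∃ q' : G, q' = m * g0 := ⟨_, rfl⟩
  rw [← hq'def] at hmin hang
  have hq' : (q' : G ⧸ M) = q := by
    rw [hq'def, QuotientGroup.mk_mul, hg0, (QuotientGroup.eq_one_iff m).2 hm, one_mul]
  have hlen : E.len q' = Q.len q := by
    apply le_antisymm
    · have := hmin 1 M.one_mem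
      rwa [one_mul, hl0] at this
    · rw [← hq']; exact S.le q'
  obtain ⟨l, hl⟩ : ∃ l, l = Q.len q := ⟨_, rfl⟩
  rw [← hl] at hlen hq
  obtain ⟨γ, hγ, γ0, γl⟩ := mq_exists_geod E 1 q'
  rw [E.d_one, hlen] at hγ γl
  have Qle : ∀ x y : G, Q.d (x : G ⧸ M) y ≤ E.d x y := fun x y => S.le (x⁻¹ * y)
  have hQ0 : Q.d (γ 0 : G ⧸ M) (γ l) = l := by
    rw [γ0, γl, hq', hl]
    exact Q.d_one q
  have Qa : ∀ j ≤ l, Q.d (γ 0 : G ⧸ M) (γ j) = j ∧ Q.d (γ j : G ⧸ M) (γ l) = l - j := by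
    intro j hj
    have h1 := mq_geod_le hγ (Nat.zero_le j) hj
    have h2 := mq_geod_le hγ hj le_rfl
    have h3 := Qle (γ 0) (γ j)
    have h4 := Qle (γ j) (γ l)
    have h5 := Q.d_tri (γ 0 : G ⧸ M) (γ j) (γ l)
    omega
  have hSD1 : ∀ g ∈ Q.SD Kb q, Q.d (γ 0 : G ⧸ M) (g * γ 0) ≤ Kb := by
    rintro g ⟨hg, -⟩
    have e : Q.d (γ 0 : G ⧸ M) (g * γ 0) = Q.len g := by
      rw [γ0]
      unfold GH.d
      congr 1
      simp
    rw [e]; exact hg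
  have hSD2 : ∀ g ∈ Q.SD Kb q, Q.d (γ l : G ⧸ M) (g * γ l) ≤ Kb := by
    rintro g ⟨-, hg⟩
    rw [γl, hq']
    unfold GH.d
    rwa [← mul_assoc]
  have hdisp : ∀ g ∈ Q.SD Kb q, ∀ j ≤ l, Q.d (γ j : G ⧸ M) (g * γ j) ≤ K' := by
    intro g hg j hj
    have h1 := Qa j hj
    rw [hK']
    exact mq_disp Q (hSD1 g hg) (hSD2 g hg) (l := l) (by omega) hQ0
  by_cases hB : ∃ a, m0 ≤ a ∧ a + W + m0 ≤ l ∧ ∀ k, a ≤ k → k < a + W →
      H.d (γ k) (γ (k + 1)) ≤ 2 * c + θ + 10 * Θ + 10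
  · -- a window without big edges
    obtain ⟨a, ha1, ha2, ha3⟩ := hB
    have hD : ∀ (i : L.ι) (u : G), L.D i u (γ a) (γ (a + W)) ≤ A := by
      intro i u
      have := mq_nobig L S.cone hγ (by omega) ha3 i u
      omega
    have hE : E.d (γ a) (γ (a + W)) = W := by
      rw [mq_geod_eq hγ (by omega) (by omega)]
      omega
    obtain ⟨c1, c2⟩ := S.case2 hR hD (by rw [hE, hW]) n4
    refine ⟨?_, Or.inl ?_⟩
    · intro g hg hf
      exact c1 g (hdisp g hg _ (by omega)) (hdisp g hg _ (by omega)) hf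
    · intro g hg h hh
      exact c2 g h (hdisp g hg _ (by omega)) (hdisp g hg _ (by omega))
        (hdisp h hh _ (by omega)) (hdisp h hh _ (by omega))
  · -- two big edges
    have hbig : ∀ a, m0 ≤ a → a + W + m0 ≤ l → ∃ k, a ≤ k ∧ k < a + W ∧
        2 * c + θ + 10 * Θ + 10 < H.d (γ k) (γ (k + 1)) := by
      intro a h1 h2
      by_contra hcon
      apply hB
      refine ⟨a, h1, h2, ?_⟩
      intro k hk1 hk2
      by_contra hk3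
      exact hcon ⟨k, hk1, hk2, by omega⟩
    obtain ⟨k1, a1, a2, a3⟩ := hbig m0 le_rfl (by omega)
    obtain ⟨k3, b1, b2, b3⟩ := hbig (m0 + W) (by omega) (by omega)
    have hex : ∃ k, k1 < k ∧ 2 * c + θ + 10 * Θ + 10 < H.d (γ k) (γ (k + 1)) :=
      ⟨k3, by omega, b3⟩
    classical
    obtain ⟨k2, hk2, hmin2⟩ : ∃ k2, (k1 < k2 ∧ 2 * c + θ + 10 * Θ + 10 < H.d (γ k2) (γ (k2 + 1))) ∧
        ∀ k < k2, ¬ (k1 < k ∧ 2 * c + θ + 10 * Θ + 10 < H.d (γ k) (γ (k + 1))) :=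
      ⟨Nat.find hex, Nat.find_spec hex, fun k hk => Nat.find_min hex hk⟩
    have hk23 : k2 ≤ k3 := by
      by_contra hlt
      exact hmin2 k3 (by omega) ⟨by omega, b3⟩
    have hang' : ∀ (i : L.ι) (u : G), 2 * |L.s i u (γ 0) (γ l)| < n i + T * (2 * c + 1) := by
      intro i u
      rw [γ0, γl]
      exact hang i u
    obtain ⟨f1, f2⟩ := S.case1 hγ hQ0 hang' (K' := K') (k1 := k1) (k2 := k2) (by omega)
      hk2.1 (by omega) a3.le hk2.2.le (by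
        intro k h1 h2
        by_contra h3
        exact hmin2 k h2 ⟨h1, by omega⟩) n3
    have hsub : Q.SD Kb q ⊆ {g : G ⧸ M | ∀ j, k1 - (K' + 2) ≤ j → j ≤ k2 + 1 + (K' + 2) →
        Q.d (γ j : G ⧸ M) (g * γ j) ≤ K'} := by
      intro g hg j _ hj
      exact hdisp g hg j (by omega)
    refine ⟨?_, Or.inr ⟨f1.subset hsub, ?_⟩⟩
    · intro g hg hf
      by_contra hne
      have hord : p ≤ orderOf g := by
        obtain ⟨k, -, hk⟩ := (Nat.dvd_prime_pow hp).1 (orderOf_dvd_of_pow_eq_one (ht g hf))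
        rw [hk]
        refine Nat.le_self_pow ?_ p
        rintro rfl
        rw [pow_zero, orderOf_eq_one_iff] at hk
        exact hne hk
      have himg : (fun e : ℕ => g ^ e) '' (Set.Iio (N + 1)) ⊆
          {g : G ⧸ M | ∀ j, k1 - (K' + 2) ≤ j → j ≤ k2 + 1 + (K' + 2) →
            Q.d (γ j : G ⧸ M) (g * γ j) ≤ K'} := by
        rintro _ ⟨e, he, rfl⟩ j hj1 hj2
        have he' : e < N + 1 := he
        have h1 := Qa j (by omega)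
        exact (mq_fin_pow Q (N := N) (by omega) hf (hSD1 g hg) (hSD2 g hg) (by omega) (by omega)
          (by omega)).trans h10
      have hinj : Set.InjOn (fun e : ℕ => g ^ e) (Set.Iio (N + 1)) := by
        apply (pow_injOn_Iio_orderOf (x := g)).mono
        intro e he
        have he' : e < N + 1 := he
        rw [Set.mem_Iio]
        omega
      have c1 := Set.ncard_le_ncard himg f1
      rw [hinj.ncard_image, Set.ncard_eq_toFinset_card', Set.toFinset_Iio,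
        Nat.card_Iio, ← hN] at *
      omega
    · rw [hN]
      exact (Set.ncard_le_ncard hsub f1).trans f2

/-- the mixed property of the quotient: `C` does not depend on `T` -/
theorem mixQ (D c θ Θ De B : ℕ) : ∃ C : ℕ, ∀ T : ℕ, ∃ n0 : ℕ, ∀ (G : Type) [Group G] (H : GH G)
    (L : LS H c θ T) (K p m L1 : ℕ) (n : L.ι → ℕ) (E : GH G) (M : Subgroup G) [M.Normal]
    (Q : GH (G ⧸ M)), H.D ≤ D → E.D ≤ De → p.Prime → n0 ≤ p → Tor (G ⧸ M) (p ^ m) →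
    SetupV L K B L1 Θ p n E M Q →
    Q.Mix (100 * Q.D + 100) (C * (Nat.clog 2 T + 1)) ((2 * (101 * Q.D + 100) + 3) ^ 2) := by
  obtain ⟨b0, hb0⟩ : ∃ b0, b0 = 2 * De + 2 := ⟨_, rfl⟩
  obtain ⟨k0, hk0⟩ : ∃ k0, k0 = 101 * b0 + 100 := ⟨_, rfl⟩
  obtain ⟨A, hA⟩ : ∃ A, A = 2 * c + θ + 12 * Θ + 10 := ⟨_, rfl⟩
  obtain ⟨r0, hr0⟩ : ∃ r0, r0 = (2 * A + 3 * Θ + 1) * k0 := ⟨_, rfl⟩
  obtain ⟨N0, hN0⟩ : ∃ N0, N0 = (2 * k0 + 3) ^ 2 := ⟨_, rfl⟩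
  obtain ⟨m0, hm0⟩ : ∃ m0, m0 = 2 * (N0 * (100 * b0 + 100)) + 10 * b0 + 10 + k0 + 5 := ⟨_, rfl⟩
  obtain ⟨Y, hY⟩ : ∃ Y, Y = 20 * (D + c + 1) := ⟨_, rfl⟩
  obtain ⟨X, hX⟩ : ∃ X, X = 2 * k0 + 2 + B + 24 * r0 + 100 * D + 100 + 2 * r0 +
    Y * (10 * (D + c + 1)) := ⟨_, rfl⟩
  refine ⟨2 * m0 + 3 * X + 10 + 3 * Y, fun T => ?_⟩
  refine ⟨N0 + 1 + (T * (2 * c + 1) + 2 * T * Θ) +
    ((4 * k0 + 20) * (T * (2 * c + 2 * θ + 20 * Θ + 20) + 1) + 24 * (T * (2 * c + θ + 1))) +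
    (4 * (T * (A + Θ + 1) + 1) + 24 * (T * (2 * c + θ + 1)) + T * (2 * c + 1) +
      4 * T * (r0 + θ + Θ + 1000 * (D + c + θ + 1)) + 48 * (T * (2 * c + θ + 1)) + 4), ?_⟩
  intro G _ H L K p m L1 n E M _ Q hHD hED hp hn0 ht S
  have hb : Q.D ≤ b0 := by
    rw [S.hQD, hb0]; omega
  obtain ⟨K', hK'⟩ : ∃ K', K' = 101 * Q.D + 100 := ⟨_, rfl⟩
  have hkk : K' ≤ k0 := by omega
  obtain ⟨R, hR⟩ : ∃ R, R = (2 * A + 3 * Θ + 1) * K' := ⟨_, rfl⟩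
  have hRr : R ≤ r0 := by
    rw [hR, hr0]
    exact Nat.mul_le_mul_left _ hkk
  obtain ⟨N, hN⟩ : ∃ N, N = (2 * K' + 3) ^ 2 := ⟨_, rfl⟩
  have hNN : N ≤ N0 := by
    rw [hN, hN0]
    exact Nat.pow_le_pow_left (by omega) 2
  have hthr : L.thr = T * (2 * c + θ + 1) := rfl
  obtain ⟨m1, hm1⟩ : ∃ m1, m1 = 2 * (N * (100 * Q.D + 100)) + 10 * Q.D + 10 + K' + 5 := ⟨_, rfl⟩
  have hmm : m1 ≤ m0 := by
    have : N * (100 * Q.D + 100) ≤ N0 * (100 * b0 + 100) := Nat.mul_le_mul hNN (by omega)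
    omega
  obtain ⟨W, hW⟩ : ∃ W, W = 2 * K' + 2 + B + 24 * R + 100 * H.D + 100 + 2 * R +
      20 * (H.D + c + 1) * (Nat.clog 2 T + 10 * (H.D + c + 1)) := ⟨_, rfl⟩
  have hWX : W ≤ X + Y * Nat.clog 2 T := by
    have h1 : 20 * (H.D + c + 1) * (Nat.clog 2 T + 10 * (H.D + c + 1)) ≤
        Y * (Nat.clog 2 T + 10 * (D + c + 1)) := by
      rw [hY]
      exact Nat.mul_le_mul (by omega) (by omega)
    rw [Nat.mul_add Y] at h1
    omega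
  have hn3 : (4 * K' + 20) * (T * (2 * c + 2 * θ + 20 * Θ + 20) + 1) ≤
      (4 * k0 + 20) * (T * (2 * c + 2 * θ + 20 * Θ + 20) + 1) :=
    Nat.mul_le_mul_right _ (by omega)
  have hn4 : 4 * T * (R + θ + Θ + 1000 * (H.D + c + θ + 1)) ≤
      4 * T * (r0 + θ + Θ + 1000 * (D + c + θ + 1)) :=
    Nat.mul_le_mul_left _ (by omega)
  intro q hq
  have hlen : 2 * m1 + 3 * W + 10 ≤ Q.len q := by
    refine le_trans ?_ hq
    have h1 : (2 * m0 + 3 * X + 10 + 3 * Y) * (Nat.clog 2 T + 1) =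
      (2 * m0 + 3 * X + 10) * Nat.clog 2 T + 3 * (Y * Nat.clog 2 T) +
        (2 * m0 + 3 * X + 10 + 3 * Y) := by ring
    rw [h1]
    have h2 := Nat.zero_le ((2 * m0 + 3 * X + 10) * Nat.clog 2 T)
    omega
  have key := mq_main S hp ht (Kb := 100 * Q.D + 100) (K' := K') (by omega) (by omega) hN hA hR hW
    hm1 (by omega) (by omega) (by omega) (by omega) q hlen
  rw [← hK', ← hN]
  exact key

end Pool.Agent.Q19.VX
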