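import Pool.Agent.TH54.BU.Step
import Pool.Agent.Q19.VX.MixQ
import Pool.Agent.Q19.VX.WindF
import Pool.Agent.Q19.VX.QuoE

/-!
# One step of the construction with variable exponents

`ρ : G →* R` is a homomorphism and the exponent of the relator of `x i` is `ν (ρ (x i))`.
-/

set_option autoImplicit false

namespace Pool.Agent.Q19.VX

open Pool.Agent.TH54.BU

/-- admissible exponents -/
structure Adm {R : Type*} [Group R] (p m : ℕ) (ν : R → ℕ) : Prop where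
  pow_eq : ∀ r, r ^ ν r = 1
  dvd : ∀ (r : R) (k : ℤ), (ν r : ℤ) ∣ k * ν (r ^ k)
  conj : ∀ r u : R, ν (u * r * u⁻¹) = ν r
  le : ∀ r, p ∣ ν r
  ge : ∀ r, ν r ∣ p ^ m

/-- the conclusion of one step -/
structure StepV {G R : Type} [Group G] [Group R] (ρ : G →* R) (ν : R → ℕ) (K B T : ℕ) (H : GH G)
    (M : Subgroup G) [M.Normal] : Prop where
  ker : M ≤ ρ.ker
  tor : ∀ g : G, IsOfFinOrder (g : G ⧸ M) → g ^ ν (ρ g) ∈ M
  len : ∃ F : GH (G ⧸ M), F.D = 4 ∧ F.Stab T ∧ F.Acy K B ∧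
    (∀ g : G, F.len (g : G ⧸ M) ≤ (H.len g + 1) / 2) ∧
    ∀ z : G, ¬ IsOfFinOrder z → H.len z ≤ 1 → ∃ (x u : G) (k : ℤ), z = u * x ^ k * u⁻¹ ∧
      (∀ j : ℤ, F.len ((x ^ j : G) : G ⧸ M) ≤ 1) ∧ ∀ j : ℤ, x ^ j ∈ M → (ν (ρ x) : ℤ) ∣ j
  small : ∀ g : G, H.len g ≤ 4 → g ∈ M → g = 1
  kill : ∀ g : G, H.len g ≤ 1 → IsOfFinOrder (g : G ⧸ M)

/-- the order of `x i` in the quotient -/
theorem ord_line {G : Type} [Group G] {H : GH G} {c θ T : ℕ} {L : LS H c θ T} {n : L.ι → ℕ}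
    {n0 : ℕ} {M : Subgroup G} (F : FilV L n M) (lo : ∀ i, n0 ≤ n i)
    (hn : 24 * L.thr + T * θ + 1 ≤ n0) (i : L.ι) (hi : ¬ IsOfFinOrder (L.x i)) (j : ℤ)
    (hj : L.x i ^ j ∈ M) : (n i : ℤ) ∣ j := by
  have loi := lo i
  have hpos : (0 : ℤ) < n i := by
    have : 0 < n i := by omega
    exact_mod_cast this
  -- a small remainder
  obtain ⟨l, r, hr, hjr⟩ : ∃ l r : ℤ, 2 * |r| ≤ n i ∧ j = n i * l + r := by
    by_cases h : 2 * (j % n i) ≤ n i
    · refine ⟨j / n i, j % n i, ?_, (Int.mul_ediv_add_emod j (n i)).symm⟩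
      rw [abs_of_nonneg (Int.emod_nonneg _ hpos.ne')]
      exact h
    · refine ⟨j / n i + 1, j % n i - n i, ?_, ?_⟩
      · have h1 := Int.emod_lt_of_pos j hpos
        rw [abs_of_nonpos (by linarith)]
        linarith
      · have := (Int.mul_ediv_add_emod j (n i))
        linarith
  have hrM : L.x i ^ r ∈ M := by
    have h1 := F.rot i 1 (-l)
    have h2 : L.rt i 1 (n i * -l) * L.x i ^ j = L.x i ^ r := by
      unfold LS.rt
      rw [one_mul, inv_one, mul_one, ← zpow_add, hjr]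
      congr 1
      ring
    rw [← h2]
    exact M.mul_mem h1 hj
  rcases eq_or_ne r 0 with h0 | h0
  · rw [hjr, h0, add_zero]
    exact dvd_mul_right _ _
  exfalso
  have hr1 : L.x i ^ r ≠ 1 := by
    intro h
    apply hi
    rw [isOfFinOrder_iff_zpow_eq_one]
    exact ⟨r, h0, h⟩
  obtain ⟨i', u, hg⟩ := F.gr _ hrM hr1 1
  rw [mul_one] at hg
  have hthr0 : (0 : ℤ) ≤ (L.thr : ℤ) := by positivity
  have hnz : (24 : ℤ) * L.thr + T * θ + 1 ≤ n i' := by exact_mod_cast hn.trans (lo i')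
  have hnz' : (24 : ℤ) * L.thr + T * θ + 1 ≤ n i := by exact_mod_cast hn.trans loi
  have hTθ : (0 : ℤ) ≤ (T : ℤ) * θ := by positivity
  by_cases hD : θ < L.D i' u 1 (L.x i ^ r)
  · obtain ⟨rfl, t, ht⟩ := L.rg_same (i := i') (j := i) (u := u) (v := 1) (a := 0) (b := r) (by
      simpa using hD)
    have ht' : L.x i' ^ t = u⁻¹ * 1 := ht
    have hu : u = L.x i' ^ (-t) := by
      rw [zpow_neg, ht']
      group
    have hs : L.s i' u 1 (L.x i' ^ r) = r := by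
      have h1 := L.wf_s_base i' 1 (-t) 1 (L.x i' ^ r)
      rw [one_mul] at h1
      rw [hu, h1]
      unfold LS.s
      have h2 := L.shift i' r 1
      simp only [inv_one, one_mul, mul_one] at h2 ⊢
      rw [h2]
      ring
    rw [hs] at hg
    linarith
  · push Not at hD
    have h1 := L.rg_s_le i' u 1 (L.x i ^ r)
    have h2 : ((T * L.D i' u 1 (L.x i ^ r) : ℕ) : ℤ) ≤ ((T * θ : ℕ) : ℤ) := by
      exact_mod_cast Nat.mul_le_mul_left T hD
    push_cast at h2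
    linarith

theorem stepV : ∃ K B T : ℕ, 500 ≤ K ∧ 8 * K + 20 ≤ B ∧ 1 ≤ T ∧ ∃ p0 : ℕ, ∀ p : ℕ, p.Prime →
    p0 ≤ p → ∀ (m : ℕ) (G R : Type) [Group G] [Group R] (ρ : G →* R) (ν : R → ℕ), Adm p m ν →
    (∀ g : G, IsOfFinOrder g → g ^ ν (ρ g) = 1) →
    ∀ H : GH G, H.D = 4 → H.Stab T → H.Acy K B →
    ∃ (M : Subgroup G) (_ : M.Normal), StepV ρ ν K B T H M := by
  obtain ⟨De, hDe⟩ := exists_cone 4 3250
  obtain ⟨QD, hQD⟩ : ∃ x, x = 2 * De + 2 := ⟨_, rfl⟩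
  obtain ⟨Nb, hNb⟩ : ∃ x, x = (2 * (101 * QD + 100) + 3) ^ 2 := ⟨_, rfl⟩
  obtain ⟨B, hB⟩ : ∃ x, x = 8 * (Nb + 3) * 500 + 2 := ⟨_, rfl⟩
  obtain ⟨θ, hθ⟩ : ∃ x, x = B + 200 * (220 + 3250 + 4 + 1) := ⟨_, rfl⟩
  obtain ⟨Θ, hΘ⟩ := hDe θ
  obtain ⟨Cm, hCm⟩ := mixQ 4 3250 θ Θ De B
  obtain ⟨Te, hTe⟩ : ∃ x, x = 2 * (θ + 2 * Θ + 100 * (4 + 3250 + 1) + 2) := ⟨_, rfl⟩
  obtain ⟨κ, hκ1, hκ2⟩ := exists_kappa Cm (QD + 2) (100 * QD + 100) Te
  obtain ⟨T, hT⟩ : ∃ x, x = κ * Te := ⟨_, rfl⟩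
  rw [← hT] at hκ2
  have hκ : 2 ≤ κ := by omega
  have hT1 : 1 ≤ T := by
    rw [hT]
    exact Nat.mul_pos (by omega) (by omega)
  obtain ⟨n0, hn0⟩ := hCm T
  obtain ⟨th, hth⟩ : ∃ x, x = T * (2 * 3250 + θ + 1) := ⟨_, rfl⟩
  obtain ⟨p0, hp0⟩ : ∃ x, x = n0 + (40 * th + 1) + (24 * th + T * (2 * 3250 + 1) +
    4 * (T * Θ + 1)) + (4 * T * (1000 * (4 + 3250 + θ + 1)) + 4 * T * Θ + 48 * th + 4) +
    T * (4 + 3250) + T * θ + 3 := ⟨_, rfl⟩
  refine ⟨500, B, T, le_rfl, ?_, hT1, p0, ?_⟩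
  · omega
  intro p hp hpp m G R _ _ ρ ν hν htz H hD hS hA
  have hp3 : 3 ≤ p := by omega
  have hodd : Odd p := hp.odd_of_ne_two (by omega)
  have hoddm : Odd (p ^ m) := hodd.pow
  have hνp : ∀ r, p ≤ ν r := by
    intro r
    refine Nat.le_of_dvd ?_ (hν.le r)
    exact Nat.pos_of_dvd_of_pos (hν.ge r) (pow_pos hp.pos m)
  have htor : Tor G (p ^ m) := by
    intro g hg
    obtain ⟨k, hk⟩ := hν.ge (ρ g)
    rw [hk, pow_mul, htz g hg, one_pow]
  have hK : 100 * H.D + 100 ≤ 500 := by rw [hD]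
  obtain ⟨L, hprim, hxlen, hshort⟩ := exists_LS' H hK hS hA hoddm htor 220 3250 θ
    (by rw [hD]) (by rw [hD, hθ])
  have hthr : L.thr = th := hth.symm
  let n : L.ι → ℕ := fun i => ν (ρ (L.x i))
  have lo : ∀ i, p ≤ n i := fun i => hνp _
  set M := Subgroup.normalClosure (Set.range fun i => L.x i ^ n i) with hM
  have hMn : M.Normal := Subgroup.normalClosure_normal
  have hn1 : ∀ i, 40 * L.thr + 1 ≤ n i := by
    intro i
    have := lo i
    rw [hthr]; omega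
  have F : FilV L n M := fil L hn1
  have hxM : ∀ i, L.x i ^ n i ∈ M := fun i => Subgroup.subset_normalClosure ⟨i, rfl⟩
  have hker : M ≤ ρ.ker := by
    rw [hM]
    apply Subgroup.normalClosure_le_normal
    rintro _ ⟨i, rfl⟩
    show ρ (L.x i ^ n i) = 1
    rw [map_pow]
    exact hν.pow_eq _
  have hρM : ∀ g h : G, (g : G ⧸ M) = h → ρ g = ρ h := by
    intro g h hgh
    have h1 := hker (QuotientGroup.eq.1 hgh)
    rw [MonoidHom.mem_ker, map_mul, map_inv] at h1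
    exact (inv_mul_eq_one.1 h1)
  obtain ⟨E, hED, hcone⟩ := hΘ G H T L (by rw [hD])
  obtain ⟨Q, hQD', hQ1, hQ2⟩ := exists_quo L F lo hcone (by rw [hthr]; omega)
  have hQDQ : Q.D = QD := by rw [hQD', hED, hQD]
  have S : SetupV L 500 B 220 Θ p n E M Q :=
    { hK := hK, stab := hS, hT := hT1, acy := hA, lo := lo
      hL1 := by omega, short := hshort, fil := F, cone := hcone
      le := hQ1, lift := hQ2, hQD := hQD' }
  obtain ⟨hQS, hQT⟩ := S.stab_tor (by rw [hthr, hD]; omega)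
  have htz' : ∀ g : G, IsOfFinOrder (g : G ⧸ M) → g ^ ν (ρ g) ∈ M := by
    intro b hb
    obtain ⟨g, hg, hg2⟩ := hQT _ hb
    rw [← QuotientGroup.eq_one_iff, QuotientGroup.mk_pow, ← hρM g b hg, ← hg,
      ← QuotientGroup.mk_pow, QuotientGroup.eq_one_iff]
    rcases hg2 with hg2 | ⟨i, u, k, hk⟩
    · rw [htz g hg2]
      exact M.one_mem
    · have h1 : ν (ρ g) = ν (ρ (L.x i) ^ k) := by
        rw [hk, map_mul, map_mul, map_inv, hν.conj, map_zpow]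
      obtain ⟨l, hl⟩ := hν.dvd (ρ (L.x i)) k
      rw [h1]
      have h2 : g ^ ν (ρ (L.x i) ^ k) = L.rt i u (n i * l) := by
        unfold LS.rt
        rw [hk, conj_pow, ← zpow_natCast (L.x i ^ k), ← zpow_mul, hl]
      rw [h2]
      exact F.rot i u l
  have htorQ : Tor (G ⧸ M) (p ^ m) := by
    intro q hq
    obtain ⟨g, rfl⟩ := QuotientGroup.mk_surjective q
    have h1 := (QuotientGroup.eq_one_iff _).2 (htz' g hq)
    obtain ⟨k, hk⟩ := hν.ge (ρ g)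
    show ((g : G ⧸ M)) ^ (p ^ m) = 1
    rw [hk, pow_mul, ← QuotientGroup.mk_pow, h1, one_pow]
  have hmix := hn0 G H L 500 p m 220 n E M Q (by rw [hD]) (by rw [hED]) hp (by omega) htorQ S
  rw [hQDQ, ← hNb] at hmix
  have hacyQ := Q.mixA (by rw [hQDQ]) hQS hmix (κ * 500)
  obtain ⟨F', hF'D, hF'⟩ := rescale Q (κ := κ) (by omega) (by rw [hQDQ]; omega)
  have hceil : ∀ q, Q.len q ≤ κ * F'.len q := by
    intro q
    rw [hF']
    have := Nat.div_add_mod (Q.len q + κ - 1) κ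
    have h2 := Nat.mod_lt (Q.len q + κ - 1) (show 0 < κ by omega)
    omega
  refine ⟨M, hMn, ?_⟩
  refine
    { ker := hker
      tor := htz'
      len := ⟨F', hF'D, ?_, ?_, ?_, ?_⟩
      small := ?_
      kill := ?_ }
  · intro q hq m
    have h1 := hQS q hq m
    have h2 : 2 * (θ + 2 * Θ + 100 * (H.D + 3250 + 1) + 2) = Te := by rw [hD, hTe]
    rw [h2] at h1
    calc m ≤ Te * Q.len (q ^ m) := h1
      _ ≤ Te * (κ * F'.len (q ^ m)) := Nat.mul_le_mul_left _ (hceil _)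
      _ = T * F'.len (q ^ m) := by rw [hT]; ring
  · intro q hq g hg
    have hq1 : κ * (B - 1) + 1 ≤ Q.len q := by
      rw [hF'] at hq
      by_contra hcon
      push Not at hcon
      have h1 : (Q.len q + κ - 1) / κ ≤ B - 1 := by
        rw [← Nat.lt_succ_iff, Nat.div_lt_iff_lt_mul (by omega)]
        have : κ * (B - 1) = (B - 1) * κ := Nat.mul_comm _ _
        rw [Nat.succ_mul]
        omega
      omega
    have hB1 : B - 1 = 8 * (Nb + 3) * 500 + 1 := by omega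
    have e1 : κ * (B - 1) = 8 * (Nb + 3) * (κ * 500) + κ := by rw [hB1]; ring
    have hsd : ∀ g, g ∈ F'.SD 500 q → g ∈ Q.SD (κ * 500) q := by
      rintro g ⟨g1, g2⟩
      exact ⟨(hceil g).trans (Nat.mul_le_mul_left _ g1),
        (hceil _).trans (Nat.mul_le_mul_left _ g2)⟩
    obtain ⟨a1, a2⟩ := hacyQ q (by rw [hQDQ]; omega) g (hsd g hg)
    exact ⟨a1, fun h hh => a2 h (hsd h hh)⟩
  · intro g
    rw [hF']
    have h1 := hQ1 g
    have h2 := hcone.le g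
    have h3 : Q.len (g : G ⧸ M) ≤ H.len g := h1.trans h2
    rw [← Nat.lt_succ_iff, Nat.div_lt_iff_lt_mul (by omega)]
    have h4 : ((H.len g + 1) / 2 + 1) * 2 ≤ ((H.len g + 1) / 2).succ * κ :=
      Nat.mul_le_mul_left _ hκ
    have h5 : ((H.len g + 1) / 2).succ * κ = (H.len g + 1) / 2 * κ + κ := Nat.succ_mul _ _
    have h6 : (H.len g + 1) / 2 * 2 ≤ (H.len g + 1) / 2 * κ := Nat.mul_le_mul_left _ hκ
    omega
  · intro z hz hz1
    obtain ⟨i, u, k, hk⟩ := hshort z hz (by rw [hD]; omega)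
    refine ⟨L.x i, u, k, hk, ?_, ?_⟩
    · intro j
      rw [hF']
      have h1 := hQ1 (L.x i ^ j)
      have h2 : E.len (L.x i ^ j) ≤ 1 := (hcone.le_one _).2 (Or.inr ⟨i, j, rfl⟩)
      rw [← Nat.lt_succ_iff, Nat.div_lt_iff_lt_mul (by omega)]
      omega
    · intro j hj
      exact ord_line F lo (by rw [hthr]; omega) i (hprim i).1 j hj
  · intro g hg hgM
    by_contra hne
    obtain ⟨i, u, hiu⟩ := F.gr g hgM hne 1
    have h1 := L.s_le i u 1 (g * 1)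
    rw [mul_one] at h1 hiu
    rw [H.d_one] at h1
    have h2 : T * (H.len g + 3250) ≤ T * (4 + 3250) := Nat.mul_le_mul_left _ (by omega)
    rw [hthr] at hiu
    have h3 : (n i : ℤ) ≤ ((T * (4 + 3250) : ℕ) : ℤ) + 12 * th := by
      have : ((T * (H.len g + 3250) : ℕ) : ℤ) ≤ ((T * (4 + 3250) : ℕ) : ℤ) := by exact_mod_cast h2
      omega
    have h4 : n i ≤ T * (4 + 3250) + 12 * th := by exact_mod_cast h3
    have h5 := lo i
    omega
  · intro g hg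
    by_cases hgt : IsOfFinOrder g
    · exact (QuotientGroup.mk' M).isOfFinOrder hgt
    · obtain ⟨i, u, k, hk⟩ := hshort g hgt (by rw [hD]; omega)
      rw [isOfFinOrder_iff_pow_eq_one]
      refine ⟨n i, by have := lo i; omega, ?_⟩
      have h2 : g ^ n i = L.rt i u (n i * k) := by
        unfold LS.rt
        rw [hk, conj_pow, ← zpow_natCast (L.x i ^ k), ← zpow_mul, mul_comm k]
      rw [← QuotientGroup.mk_pow, QuotientGroup.eq_one_iff, h2]
      exact F.rot i u k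

end Pool.Agent.Q19.VX
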