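import Pool.Agent.TH54.BU.Iter
import Pool.Agent.Q19.VX.Step

/-!
# The iteration with variable exponents
-/

set_option autoImplicit false

namespace Pool.Agent.Q19.VX

open Pool.Agent.TH54.BU

section

variable {F0 R : Type} [Group F0] [Group R] (ρ : F0 →* R) (ν : R → ℕ) (K B T : ℕ)

/-- a stage of the construction -/
structure Stg where
  M : Subgroup F0
  hM : M.Normal
  ker : M ≤ ρ.ker
  tor : ∀ g : F0, (∃ k : ℕ, 0 < k ∧ g ^ k ∈ M) → g ^ ν (ρ g) ∈ M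
  H : GH (F0 ⧸ M)
  hD : H.D = 4
  stab : H.Stab T
  acy : H.Acy K B

variable {ρ ν K B T}

instance (s : Stg ρ ν K B T) : s.M.Normal := s.hM

/-- the length of an element at a stage -/
def Stg.ln (s : Stg ρ ν K B T) (g : F0) : ℕ := s.H.len (g : F0 ⧸ s.M)

/-- the relation between successive stages -/
structure Nxt (s s' : Stg ρ ν K B T) : Prop where
  leM : s.M ≤ s'.M
  len : ∀ g, s'.ln g ≤ (s.ln g + 1) / 2
  small : ∀ g, s.ln g ≤ 4 → g ∈ s'.M → g ∈ s.M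
  kill : ∀ g, s.ln g ≤ 1 → ∃ m : ℕ, 0 < m ∧ g ^ m ∈ s'.M
  ord : ∀ z : F0, ¬ (∃ k : ℕ, 0 < k ∧ z ^ k ∈ s.M) → s.ln z ≤ 1 → ∃ (x u : F0) (k : ℤ),
    (z : F0 ⧸ s.M) = ((u * x ^ k * u⁻¹ : F0) : F0 ⧸ s.M) ∧ (∀ j : ℤ, s'.ln (x ^ j) ≤ 1) ∧
    ∀ j : ℤ, x ^ j ∈ s'.M → (ν (ρ x) : ℤ) ∣ j

theorem exists_next
    (hstep : ∀ (G : Type) [Group G] (ρ : G →* R),
      (∀ g : G, IsOfFinOrder g → g ^ ν (ρ g) = 1) →
      ∀ H : GH G, H.D = 4 → H.Stab T → H.Acy K B →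
      ∃ (M : Subgroup G) (_ : M.Normal), StepV ρ ν K B T H M) (s : Stg ρ ν K B T) :
    ∃ s' : Stg ρ ν K B T, Nxt s s' := by
  have hMn := s.hM
  let σ : F0 ⧸ s.M →* R := QuotientGroup.lift s.M ρ (fun g hg => s.ker hg)
  have hσ : ∀ g : F0, σ (g : F0 ⧸ s.M) = ρ g := fun g => rfl
  have htz : ∀ g : F0 ⧸ s.M, IsOfFinOrder g → g ^ ν (σ g) = 1 := by
    intro g hg
    obtain ⟨g, rfl⟩ := QuotientGroup.mk_surjective g
    have h1 := s.tor g ((fin_mk s.M g).1 hg)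
    rw [hσ]
    show ((g : F0 ⧸ s.M)) ^ ν (ρ g) = 1
    rw [← QuotientGroup.mk_pow]
    exact (QuotientGroup.eq_one_iff _).2 h1
  obtain ⟨M1, hM1, S⟩ := hstep (F0 ⧸ s.M) σ htz s.H s.hD s.stab s.acy
  obtain ⟨F, hFD, hFS, hFA, hFlen, hFord⟩ := S.len
  let M' : Subgroup F0 := M1.comap (QuotientGroup.mk' s.M)
  have hM'n : M'.Normal := hM1.comap _
  have memM : ∀ g : F0, g ∈ M' ↔ (g : F0 ⧸ s.M) ∈ M1 := fun g => Iff.rfl
  let ψ : F0 →* (F0 ⧸ s.M) ⧸ M1 := (QuotientGroup.mk' M1).comp (QuotientGroup.mk' s.M)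
  have hψker : ∀ g, ψ g = 1 ↔ g ∈ M' := by
    intro g
    show (((g : F0 ⧸ s.M) : (F0 ⧸ s.M)) : (F0 ⧸ s.M) ⧸ M1) = 1 ↔ _
    rw [QuotientGroup.eq_one_iff, memM]
  let e0 : F0 ⧸ M' →* (F0 ⧸ s.M) ⧸ M1 := QuotientGroup.lift M' ψ (fun g hg => (hψker g).2 hg)
  have he0 : Function.Bijective e0 := by
    constructor
    · rw [injective_iff_map_eq_one]
      intro g hg
      obtain ⟨g, rfl⟩ := QuotientGroup.mk_surjective g
      exact (QuotientGroup.eq_one_iff _).2 ((hψker g).1 hg)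
    · intro g
      obtain ⟨g, rfl⟩ := QuotientGroup.mk_surjective g
      obtain ⟨g, rfl⟩ := QuotientGroup.mk_surjective g
      exact ⟨(g : F0 ⧸ M'), rfl⟩
  let e : F0 ⧸ M' ≃* (F0 ⧸ s.M) ⧸ M1 := MulEquiv.ofBijective e0 he0
  have finM : ∀ g : F0, (∃ m : ℕ, 0 < m ∧ g ^ m ∈ M') ↔
      IsOfFinOrder ((g : F0 ⧸ s.M) : (F0 ⧸ s.M) ⧸ M1) := by
    intro g
    rw [fin_mk]
    constructor
    · rintro ⟨m, hm, h⟩
      exact ⟨m, hm, by rw [← QuotientGroup.mk_pow]; exact h⟩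
    · rintro ⟨m, hm, h⟩
      refine ⟨m, hm, ?_⟩
      rw [memM, QuotientGroup.mk_pow]
      exact h
  refine ⟨⟨M', hM'n, ?_, ?_, F.comapE e, hFD, F.comapE_stab e hFS, F.comapE_acy e hFA⟩, ?_⟩
  · intro g hg
    have h1 : σ (g : F0 ⧸ s.M) = 1 := S.ker ((memM g).1 hg)
    exact h1
  · intro g hg
    have h1 := S.tor (g : F0 ⧸ s.M) ((finM g).1 hg)
    rw [hσ, ← QuotientGroup.mk_pow] at h1
    exact h1
  · refine ⟨?_, ?_, ?_, ?_, ?_⟩
    · intro a ha
      show ((a : F0) : F0 ⧸ s.M) ∈ M1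
      rw [(QuotientGroup.eq_one_iff a).2 ha]
      exact M1.one_mem
    · intro g
      exact hFlen (g : F0 ⧸ s.M)
    · intro g h1 h2
      exact (QuotientGroup.eq_one_iff g).1 (S.small (g : F0 ⧸ s.M) h1 h2)
    · intro g h1
      exact (finM g).2 (S.kill (g : F0 ⧸ s.M) h1)
    · intro z hz hz1
      obtain ⟨x, u, k, h1, h2, h3⟩ := hFord (z : F0 ⧸ s.M) (fun h => hz ((fin_mk s.M z).1 h)) hz1
      obtain ⟨x, rfl⟩ := QuotientGroup.mk_surjective x
      obtain ⟨u, rfl⟩ := QuotientGroup.mk_surjective u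
      refine ⟨x, u, k, ?_, ?_, ?_⟩
      · rw [QuotientGroup.mk_mul, QuotientGroup.mk_mul, QuotientGroup.mk_inv,
          QuotientGroup.mk_zpow]
        exact h1
      · intro j
        have := h2 j
        rw [← QuotientGroup.mk_zpow] at this
        exact this
      · intro j hj
        have h4 : ((x : F0 ⧸ s.M)) ^ j ∈ M1 := by
          rw [← QuotientGroup.mk_zpow]
          exact hj
        exact h3 j h4

end

theorem limitV : ∃ p0 : ℕ, ∀ p : ℕ, p.Prime → p0 ≤ p → ∀ (m : ℕ) (G R : Type) [Group G]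
    [Group R] (ρ : G →* R) (ν : R → ℕ), Adm p m ν →
    (∀ g : G, IsOfFinOrder g → g ^ ν (ρ g) = 1) →
    ∀ H : GH G, H.D = 4 → H.Stab 1 → (∀ K B : ℕ, 8 * K + 20 ≤ B → H.Acy K B) →
    ∃ (M : Subgroup G) (_ : M.Normal), M ≤ ρ.ker ∧ (∀ g : G, g ^ ν (ρ g) ∈ M) ∧
      ∀ z : G, ¬ IsOfFinOrder z → H.len z ≤ 1 → ∃ (x u : G) (k : ℤ), z = u * x ^ k * u⁻¹ ∧
        ∀ j : ℤ, x ^ j ∈ M → (ν (ρ x) : ℤ) ∣ j := by
  obtain ⟨K, B, T, hK, hB, hT, p0, hstep⟩ := stepV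
  refine ⟨p0, fun p hp hpp m G R _ _ ρ ν hν htz H0 hD0 hS0 hA0 => ?_⟩
  -- the first stage
  let e0 : G ⧸ (⊥ : Subgroup G) ≃* G := QuotientGroup.quotientBot
  let s0 : Stg ρ ν K B T :=
    { M := ⊥
      hM := inferInstance
      ker := bot_le
      tor := by
        rintro a ⟨k, hk, h1⟩
        rw [Subgroup.mem_bot] at h1
        rw [htz a (isOfFinOrder_iff_pow_eq_one.2 ⟨k, hk, h1⟩)]
        exact Subgroup.one_mem _
      H := H0.comapE e0
      hD := hD0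
      stab := by
        intro g hg m
        have := H0.comapE_stab e0 hS0 g hg m
        calc m ≤ 1 * (H0.comapE e0).len (g ^ m) := this
          _ ≤ T * (H0.comapE e0).len (g ^ m) := Nat.mul_le_mul_right _ hT
      acy := H0.comapE_acy e0 (hA0 K B hB) }
  have hln0 : ∀ g, s0.ln g = H0.len g := fun g => rfl
  have hnext := exists_next (K := K) (B := B) (T := T) (R := R) (ν := ν) (F0 := G) (ρ := ρ)
    (fun G _ ρ h1 H h5 h6 h7 => hstep p hp hpp m G R ρ ν hν h1 H h5 h6 h7)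
  choose nx hnx using hnext
  let s : ℕ → Stg ρ ν K B T := fun n => nx^[n] s0
  have hs : ∀ n, Nxt (s n) (s (n + 1)) := by
    intro n
    have : s (n + 1) = nx (s n) := Function.iterate_succ_apply' nx n s0
    rw [this]
    exact hnx _
  have hMmono : Monotone fun n => (s n).M := monotone_nat_of_le_succ fun n => (hs n).leM
  -- lengths decrease
  have hdec : ∀ g : G, ∀ k n : ℕ, (s n).ln g ≤ k + 1 → ∃ n', (s n').ln g ≤ 1 := by
    intro g k
    induction k with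
    | zero => exact fun n h => ⟨n, h⟩
    | succ k ih =>
      intro n h
      have := (hs n).len g
      exact ih (n + 1) (by omega)
  have htors : ∀ g : G, ∃ n, ∃ m : ℕ, 0 < m ∧ g ^ m ∈ (s n).M := by
    intro g
    obtain ⟨n, hn⟩ := hdec g ((s 0).ln g) 0 (by omega)
    exact ⟨n + 1, (hs n).kill g hn⟩
  let Minf : Subgroup G := ⨆ n, (s n).M
  have memM : ∀ g : G, g ∈ Minf ↔ ∃ n, g ∈ (s n).M := fun g =>
    Subgroup.mem_iSup_of_directed hMmono.directed_le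
  have hMn : Minf.Normal := by
    constructor
    intro a ha g
    obtain ⟨n, hn⟩ := (memM a).1 ha
    exact (memM _).2 ⟨n, (s n).hM.conj_mem a hn g⟩
  refine ⟨Minf, hMn, ?_, ?_, ?_⟩
  · exact iSup_le fun n => (s n).ker
  · intro g
    obtain ⟨n, hn⟩ := htors g
    exact (memM _).2 ⟨n, (s n).tor g hn⟩
  · intro z hz hz1
    have hz' : ¬ ∃ k : ℕ, 0 < k ∧ z ^ k ∈ (s 0).M := by
      rintro ⟨k, hk, h⟩
      exact hz (isOfFinOrder_iff_pow_eq_one.2 ⟨k, hk, Subgroup.mem_bot.1 h⟩)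
    obtain ⟨x, u, k, h1, h2, h3⟩ := (hs 0).ord z hz' (by
      show s0.ln z ≤ 1
      rw [hln0]; exact hz1)
    refine ⟨x, u, k, ?_, ?_⟩
    · have h4 : z⁻¹ * (u * x ^ k * u⁻¹) ∈ (⊥ : Subgroup G) := QuotientGroup.eq.1 h1
      exact inv_mul_eq_one.1 (Subgroup.mem_bot.1 h4)
    · intro j hj
      apply h3 j
      obtain ⟨n, hn⟩ := (memM _).1 hj
      have hlen : ∀ n, (s (n + 1)).ln (x ^ j) ≤ 1 := by
        intro n
        induction n with
        | zero => exact h2 j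
        | succ n ih =>
          have := (hs (n + 1)).len (x ^ j)
          omega
      have hdown : ∀ n, x ^ j ∈ (s (n + 1)).M → x ^ j ∈ (s 1).M := by
        intro n
        induction n with
        | zero => exact id
        | succ n ih =>
          intro h
          exact ih ((hs (n + 1)).small _ (by have := hlen n; omega) h)
      exact hdown n (hMmono (Nat.le_succ n) hn)

end Pool.Agent.Q19.VX
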