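import Pool.Agent.TH95.NR.J1
import Pool.Agent.TH95.NR.J3
import Pool.Agent.TH95.NR.J4
import Pool.Agent.Q19.VX.Iter

/-!
# Extensions of groups of exponent `p ^ m` which keep the orders of the elements
-/

set_option autoImplicit false

namespace Pool.Agent.Q19.VX

open Pool.Agent.TH54.BU Pool.Agent.TH95.NR

/-- the exponent function -/
noncomputable def nu {R : Type} [Group R] (p m : ℕ) (r : R) : ℕ :=
  open Classical in if r = 1 then p ^ m else orderOf r

theorem nu_one {R : Type} [Group R] (p m : ℕ) : nu p m (1 : R) = p ^ m := by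
  classical
  unfold nu
  exact if_pos rfl

theorem nu_ne {R : Type} [Group R] (p m : ℕ) {r : R} (h : r ≠ 1) : nu p m r = orderOf r := by
  classical
  unfold nu
  exact if_neg h

theorem orderOf_conj' {R : Type} [Group R] (u r : R) : orderOf (u * r * u⁻¹) = orderOf r := by
  have h := orderOf_injective (MulAut.conj u).toMonoidHom (MulAut.conj u).injective r
  exact h

theorem adm_nu {R : Type} [Group R] {p m : ℕ} (hp : p.Prime) (hm : 1 ≤ m)
    (hR : ∀ r : R, r ^ p ^ m = 1) : Adm p m (nu p m : R → ℕ) := by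
  have hge : ∀ r : R, nu p m r ∣ p ^ m := by
    intro r
    by_cases h : r = 1
    · rw [h, nu_one]
    · rw [nu_ne p m h]
      exact orderOf_dvd_of_pow_eq_one (hR r)
  refine ⟨?_, ?_, ?_, ?_, hge⟩
  · intro r
    by_cases h : r = 1
    · rw [h, one_pow]
    · rw [nu_ne p m h, pow_orderOf_eq_one]
  · intro r k
    by_cases h : r ^ k = 1
    · rw [h, nu_one]
      exact Dvd.dvd.mul_left (by exact_mod_cast hge r) _
    · have h1 : r ≠ 1 := by
        rintro rfl
        exact h (one_zpow k)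
      rw [nu_ne p m h, nu_ne p m h1, orderOf_dvd_iff_zpow_eq_one, zpow_mul, zpow_natCast,
        pow_orderOf_eq_one]
  · intro r u
    by_cases h : r = 1
    · rw [h, mul_one, mul_inv_cancel]
    · have h1 : u * r * u⁻¹ ≠ 1 := by
        intro h2
        exact h (conj_eq_one_iff.1 h2)
      rw [nu_ne p m h, nu_ne p m h1, orderOf_conj']
  · intro r
    by_cases h : r = 1
    · rw [h, nu_one]
      exact dvd_pow_self p (by omega)
    · rw [nu_ne p m h]
      obtain ⟨k, hk1, hk⟩ := (Nat.dvd_prime_pow hp).1 (orderOf_dvd_of_pow_eq_one (hR r))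
      rw [hk]
      apply dvd_pow_self
      rintro rfl
      rw [pow_zero, orderOf_eq_one_iff] at hk
      exact h hk

theorem extend : ∃ p0 : ℕ, ∀ p : ℕ, p.Prime → p0 ≤ p → ∀ m : ℕ, 1 ≤ m →
    ∀ (R : Type) [Group R], (∀ r : R, r ^ p ^ m = 1) →
    ∃ (R' : Type) (_ : Group R') (ρ : R' →* R), Function.Surjective ρ ∧
      (∀ g : R', ρ g ≠ 1 → g ^ orderOf (ρ g) = 1) ∧ (∀ g : R', ρ g = 1 → g ^ p ^ m = 1) ∧
      ∃ x : R', ρ x = 1 ∧ orderOf x = p ^ m := by
  obtain ⟨p0, hp0⟩ := limitV
  refine ⟨p0, fun p hp hpp m hm R _ hR => ?_⟩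
  let φ : (⊥ : Subgroup R) ≃* (⊥ : Subgroup R) := MulEquiv.refl _
  let G := HNNExtension R ⊥ ⊥ φ
  have hν := adm_nu hp hm hR
  let ρ : G →* R := HNNExtension.lift (MonoidHom.id R) 1 (by
    intro a
    show 1 * (a : R) = (a : R) * 1
    rw [one_mul, mul_one])
  have hρof : ∀ r : R, ρ (HNNExtension.of r) = r := fun r => by
    show HNNExtension.lift _ _ _ _ = _
    rw [HNNExtension.lift_of]
    rfl
  have hρt : ρ (HNNExtension.t : G) = 1 := by
    show HNNExtension.lift _ _ _ _ = _
    rw [HNNExtension.lift_t]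
  obtain ⟨P, h0, hw, hex, par, noinv⟩ := hnn_pl R ⊥ ⊥ φ
  have ac := hnn_ac R ⊥ ⊥ φ (fun a ha _ _ _ => Subgroup.mem_bot.1 ha)
    (fun a ha _ _ _ => Subgroup.mem_bot.1 ha) (fun a ha _ _ _ _ => Subgroup.mem_bot.1 ha)
    (fun a ha _ _ _ _ => Subgroup.mem_bot.1 ha) P h0 hw hex
  have tor : ∀ g : G, P.len g = 0 → g ^ p ^ m = 1 := by
    intro g hg
    obtain ⟨r, rfl⟩ := (h0 g).1 hg
    rw [← map_pow, hR, map_one]
  obtain ⟨H, hD, hS, hA, -, hlen⟩ := tree_gh P (p ^ m) (pow_pos hp.pos m) par noinv ac tor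
  have htz : ∀ g : G, IsOfFinOrder g → g ^ nu p m (ρ g) = 1 := by
    intro g hg
    have h1 : ∃ u : G, P.len (u⁻¹ * g * u) = 0 := by
      rcases J1.dichotomy P par noinv g with h | h
      · exact h
      · obtain ⟨n, hn, hn1⟩ := isOfFinOrder_iff_pow_eq_one.1 hg
        have := h n
        rw [hn1, P.len_one] at this
        omega
    obtain ⟨u, hu⟩ := h1
    obtain ⟨r, hr⟩ := (h0 _).1 hu
    have h2 : g = u * HNNExtension.of r * u⁻¹ := by rw [hr]; group
    have h3 : nu p m (ρ g) = nu p m r := by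
      rw [h2, map_mul, map_mul, map_inv, hρof]
      exact hν.conj r (ρ u)
    rw [h3, h2, conj_pow, ← map_pow, hν.pow_eq, map_one, mul_one, mul_inv_cancel]
  obtain ⟨M, hMn, hker, hpow, hord⟩ := hp0 p hp hpp m G R ρ (nu p m) hν htz H hD hS hA
  -- the stable letter
  let χ : G →* Multiplicative ℤ := HNNExtension.lift 1 (Multiplicative.ofAdd 1) (by
    intro a
    show Multiplicative.ofAdd 1 * 1 = 1 * Multiplicative.ofAdd 1
    rw [one_mul, mul_one])
  have hχt : χ (HNNExtension.t : G) = Multiplicative.ofAdd 1 := by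
    show HNNExtension.lift _ _ _ _ = _
    rw [HNNExtension.lift_t]
  have htlen : P.len (HNNExtension.t : G) = 1 := by
    let w : HNNExtension.NormalWord.ReducedWord R (⊥ : Subgroup R) ⊥ :=
      { head := 1, toList := [(1, 1)], chain := by simp }
    have h1 : w.prod φ = HNNExtension.t := by
      simp [w, HNNExtension.NormalWord.ReducedWord.prod]
    have h2 := hw w
    rw [h1] at h2
    exact h2
  have htinf : ¬ IsOfFinOrder (HNNExtension.t : G) := by
    intro h
    obtain ⟨n, hn, hn1⟩ := isOfFinOrder_iff_pow_eq_one.1 h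
    have h2 := congrArg χ hn1
    rw [map_pow, map_one, hχt, ← ofAdd_nsmul] at h2
    have h3 : (n : ℤ) = 0 := by
      have : n • (1 : ℤ) = 0 := h2
      simpa using this
    omega
  obtain ⟨x, u, k, h1, h2⟩ := hord HNNExtension.t htinf (by
    have := hlen (HNNExtension.t : G)
    rw [htlen] at this
    exact this)
  have hk : IsUnit k := by
    have h3 := congrArg χ h1
    rw [hχt, map_mul, map_mul, map_inv, mul_inv_cancel_comm, map_zpow] at h3
    have h4 : (1 : ℤ) = k * Multiplicative.toAdd (χ x) := by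
      have h5 := congrArg Multiplicative.toAdd h3
      rw [toAdd_zpow, smul_eq_mul] at h5
      exact h5
    exact IsUnit.of_mul_eq_one _ h4.symm
  have hρx : ρ x = 1 := by
    have h3 := congrArg ρ h1
    rw [hρt, map_mul, map_mul, map_inv, map_zpow] at h3
    have h4 : ρ x ^ k = 1 := conj_eq_one_iff.1 h3.symm
    rcases Int.isUnit_iff.1 hk with rfl | rfl
    · simpa using h4
    · simpa using h4
  refine ⟨G ⧸ M, inferInstance, QuotientGroup.lift M ρ (fun g hg => hker hg), ?_, ?_, ?_,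
    (x : G ⧸ M), hρx, ?_⟩
  · intro r
    exact ⟨((HNNExtension.of r : G) : G ⧸ M), hρof r⟩
  · intro g hg
    obtain ⟨g, rfl⟩ := QuotientGroup.mk_surjective g
    have h3 : ρ g ≠ 1 := hg
    have h4 := (QuotientGroup.eq_one_iff _).2 (hpow g)
    rw [QuotientGroup.mk_pow, nu_ne p m h3] at h4
    exact h4
  · intro g hg
    obtain ⟨g, rfl⟩ := QuotientGroup.mk_surjective g
    have h3 : ρ g = 1 := hg
    have h4 := (QuotientGroup.eq_one_iff _).2 (hpow g)
    rw [QuotientGroup.mk_pow, h3, nu_one] at h4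
    exact h4
  · apply Nat.dvd_antisymm
    · apply orderOf_dvd_of_pow_eq_one
      have h4 := (QuotientGroup.eq_one_iff _).2 (hpow x)
      rw [QuotientGroup.mk_pow, hρx, nu_one] at h4
      exact h4
    · have h5 : (x : G ⧸ M) ^ orderOf (x : G ⧸ M) = 1 := pow_orderOf_eq_one _
      rw [← QuotientGroup.mk_pow, QuotientGroup.eq_one_iff, ← zpow_natCast] at h5
      have h6 := h2 _ h5
      rw [hρx, nu_one] at h6
      exact_mod_cast h6

end Pool.Agent.Q19.VX
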