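import Pool.Agent.Q19.VX.Base

/-!
# The tower and its inverse limit
-/

set_option autoImplicit false

namespace Pool.Agent.Q19.VX

/-- a group of exponent dividing `p ^ m` -/
structure Ob (p m : ℕ) where
  R : Type
  grp : Group R
  exp : ∀ r : R, r ^ p ^ m = 1

instance {p m : ℕ} (A : Ob p m) : Group A.R := A.grp

/-- a link of the tower -/
structure Lk {p m : ℕ} (A : Ob p m) (B : Ob p (m + 1)) where
  ρ : B.R →* A.R
  surj : Function.Surjective ρ
  keep : ∀ g, ρ g ≠ 1 → g ^ orderOf (ρ g) = 1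
  x : B.R
  hx : ρ x = 1
  ord : orderOf x = p ^ (m + 1)

theorem exists_lk : ∃ p0 : ℕ, ∀ p : ℕ, p.Prime → p0 ≤ p → ∀ (m : ℕ) (A : Ob p m),
    ∃ B : Ob p (m + 1), Nonempty (Lk A B) := by
  obtain ⟨p0, hp0⟩ := extend
  refine ⟨p0, fun p hp hpp m A => ?_⟩
  have hA : ∀ r : A.R, r ^ p ^ (m + 1) = 1 := by
    intro r
    rw [pow_succ, pow_mul, A.exp r, one_pow]
  obtain ⟨R', hR', ρ, hs, h1, h2, x, hx, hox⟩ := hp0 p hp hpp (m + 1) (by omega) A.R hA
  refine ⟨⟨R', hR', ?_⟩, ⟨⟨ρ, hs, h1, x, hx, hox⟩⟩⟩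
  intro r
  by_cases h : ρ r = 1
  · exact h2 r h
  · obtain ⟨k, hk⟩ := orderOf_dvd_of_pow_eq_one (hA (ρ r))
    rw [hk, pow_mul, h1 r h, one_pow]

theorem tower : ∃ p0 : ℕ, ∀ p : ℕ, p.Prime → p0 ≤ p → ∃ (K : Type) (_ : Group K) (S : ℕ → Type)
    (_ : ∀ m, Group (S m)) (π : ∀ m, K →* S m), (∀ m g, π m g ^ p ^ m = 1) ∧
    (∀ m g, π m g ≠ 1 → g ^ p ^ m = 1) ∧ (∀ m, ∃ g, orderOf (π (m + 1) g) = p ^ (m + 1)) ∧
    ∀ g, (∀ m, π m g = 1) → g = 1 := by
  obtain ⟨p0, hp0⟩ := exists_lk
  refine ⟨p0, fun p hp hpp => ?_⟩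
  have hnx := hp0 p hp hpp
  choose nx lk using hnx
  let O0 : Ob p 0 := ⟨Multiplicative (ZMod 1), inferInstance, fun r => Subsingleton.elim _ _⟩
  obtain ⟨S, hSL⟩ : ∃ S : ∀ m, Ob p m, ∀ m, Nonempty (Lk (S m) (S (m + 1))) :=
    ⟨fun m => Nat.rec O0 (fun m A => nx m A) m, fun m => lk m _⟩
  have L : ∀ m, Lk (S m) (S (m + 1)) := fun m => (hSL m).some
  -- sections
  have hsec : ∀ m, ∃ s : (S m).R → (S (m + 1)).R, s 1 = 1 ∧ ∀ y, (L m).ρ (s y) = y := by
    intro m
    classical
    refine ⟨fun y => if y = 1 then 1 else ((L m).surj y).choose, if_pos rfl, ?_⟩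
    intro y
    by_cases h : y = 1
    · simp only [h, if_true, map_one]
    · simp only [h, if_false]
      exact ((L m).surj y).choose_spec
  choose s hs1 hs using hsec
  -- the inverse limit
  let K : Subgroup (∀ m, (S m).R) :=
    { carrier := {g | ∀ m, (L m).ρ (g (m + 1)) = g m}
      mul_mem' := by
        intro a b ha hb m
        show (L m).ρ (a (m + 1) * b (m + 1)) = a m * b m
        rw [map_mul, ha m, hb m]
      one_mem' := fun m => map_one _
      inv_mem' := by
        intro a ha m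
        show (L m).ρ (a (m + 1))⁻¹ = (a m)⁻¹
        rw [map_inv, ha m] }
  have hK : ∀ (g : K) (m : ℕ), (L m).ρ (g.1 (m + 1)) = g.1 m := fun g m => g.2 m
  let π : ∀ m, K →* (S m).R := fun m => (Pi.evalMonoidHom (fun m => (S m).R) m).comp K.subtype
  have hπ : ∀ m (g : K), π m g = g.1 m := fun _ _ => rfl
  refine ⟨K, inferInstance, fun m => (S m).R, fun m => inferInstance, π, ?_, ?_, ?_, ?_⟩
  · intro m g
    exact (S m).exp _
  · intro m g hg
    have hup : ∀ n, π (m + n) g ≠ 1 ∧ π (m + n) g ^ p ^ m = 1 := by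
      intro n
      induction n with
      | zero => exact ⟨hg, (S m).exp _⟩
      | succ n ih =>
        have h1 : (L (m + n)).ρ (π (m + n + 1) g) = π (m + n) g := hK g (m + n)
        constructor
        · intro h
          have h' : π (m + n + 1) g = 1 := h
          rw [h', map_one] at h1
          exact ih.1 h1.symm
        · obtain ⟨k, hk⟩ := orderOf_dvd_of_pow_eq_one ih.2
          have h2 := (L (m + n)).keep (π (m + n + 1) g) (by rw [h1]; exact ih.1)
          rw [h1] at h2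
          show π (m + n + 1) g ^ p ^ m = 1
          rw [hk, pow_mul, h2, one_pow]
    apply Subtype.ext
    funext j
    show (g.1 j) ^ p ^ m = 1
    rcases le_total m j with h | h
    · obtain ⟨n, rfl⟩ := Nat.exists_eq_add_of_le h
      exact (hup n).2
    · obtain ⟨n, rfl⟩ := Nat.exists_eq_add_of_le h
      rw [pow_add, pow_mul]
      have h1 : (g.1 j) ^ p ^ j = 1 := (S j).exp _
      rw [h1, one_pow]
  · intro l
    classical
    let k : ∀ m, (S m).R := fun m =>
      Nat.rec (1 : (S 0).R) (fun m y => if m = l then (L m).x else s m y) m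
    have hk : ∀ m, k (m + 1) = if m = l then (L m).x else s m (k m) := fun m => rfl
    have hk1 : ∀ m, m ≤ l → k m = 1 := by
      intro m
      induction m with
      | zero => exact fun _ => rfl
      | succ m ih =>
        intro h
        rw [hk, if_neg (by omega), ih (by omega), hs1]
    have hkK : k ∈ K := by
      intro m
      by_cases h : m = l
      · subst h
        show (L m).ρ (k (m + 1)) = k m
        rw [hk, if_pos rfl, (L m).hx, hk1 m le_rfl]
      · show (L m).ρ (k (m + 1)) = k m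
        rw [hk, if_neg h, hs]
    refine ⟨⟨k, hkK⟩, ?_⟩
    have h1 : π (l + 1) ⟨k, hkK⟩ = (L l).x := by
      show k (l + 1) = _
      rw [hk, if_pos rfl]
    show orderOf (π (l + 1) ⟨k, hkK⟩) = _
    rw [h1]
    exact (L l).ord
  · intro g hg
    apply Subtype.ext
    funext m
    exact hg m

end Pool.Agent.Q19.VX
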